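import Mathlib

set_option autoImplicit false

/-!
# Weakly consecutive permutations: rigidity

`G k t f`: `f` is a bijection of `[1,k]` such that for all `m ≤ k` and all `i ∈ [1,k]`,
`m ∣ f i ↔ m ∣ t + i`.
-/

namespace Pool.Agent.H99.WC

structure G (k t : ℕ) (f : ℕ → ℕ) : Prop where
  maps : ∀ i, 1 ≤ i → i ≤ k → 1 ≤ f i ∧ f i ≤ k
  surj : ∀ v, 1 ≤ v → v ≤ k → ∃ i, 1 ≤ i ∧ i ≤ k ∧ f i = v
  inj : ∀ i j, 1 ≤ i → i ≤ k → 1 ≤ j → j ≤ k → f i = f j → i = j
  dvd : ∀ i m, 1 ≤ i → i ≤ k → 1 ≤ m → m ≤ k → (m ∣ f i ↔ m ∣ t + i)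

/-- the window `(t, t+k]` contains exactly `k / m` multiples of `m` -/
theorem G.count {k t : ℕ} {f : ℕ → ℕ} (g : G k t f) {m : ℕ} (hm : 1 ≤ m) (hmk : m ≤ k) :
    t % m + k % m < m := by
  by_contra hcon
  push Not at hcon
  -- multiples `m * (t / m + u)`, `u = 1, …, k / m + 1`, lie in the window
  have ht := Nat.div_add_mod t m
  have hk := Nat.div_add_mod k m
  have hpos : ∀ u, 1 ≤ u → u ≤ k / m + 1 →
      1 ≤ m * (t / m + u) - t ∧ m * (t / m + u) - t ≤ k ∧ t + (m * (t / m + u) - t)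
        = m * (t / m + u) := by
    intro u hu1 hu2
    have h1 : m * (t / m + u) = m * (t / m) + m * u := by ring
    have h2 : m * 1 ≤ m * u := Nat.mul_le_mul_left m hu1
    have h3 : m * u ≤ m * (k / m + 1) := Nat.mul_le_mul_left m hu2
    have h4 : m * (k / m + 1) = m * (k / m) + m := by ring
    have h5 : t % m < m := Nat.mod_lt _ hm
    have h6 : k % m < m := Nat.mod_lt _ hm
    omega
  have hmap : ∀ u ∈ Finset.Icc 1 (k / m + 1),
      f (m * (t / m + u) - t) / m ∈ Finset.Icc 1 (k / m) := by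
    intro u hu
    rw [Finset.mem_Icc] at hu
    obtain ⟨h1, h2, h3⟩ := hpos u hu.1 hu.2
    obtain ⟨h4, h5⟩ := g.maps _ h1 h2
    have h6 : m ∣ f (m * (t / m + u) - t) := by
      rw [g.dvd _ m h1 h2 hm hmk, h3]
      exact Dvd.intro _ rfl
    obtain ⟨c, hc⟩ := h6
    rw [hc, Nat.mul_div_cancel_left _ hm, Finset.mem_Icc]
    rw [hc] at h4 h5
    constructor
    · rcases Nat.eq_zero_or_pos c with h | h
      · rw [h] at h4; omega
      · exact h
    · rw [Nat.le_div_iff_mul_le hm, mul_comm]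
      exact h5
  have hinj : Set.InjOn (fun u => f (m * (t / m + u) - t) / m) (Finset.Icc 1 (k / m + 1)) := by
    intro u hu v hv huv
    rw [Finset.coe_Icc, Set.mem_Icc] at hu hv
    have huv : f (m * (t / m + u) - t) / m = f (m * (t / m + v) - t) / m := huv
    obtain ⟨h1, h2, h3⟩ := hpos u hu.1 hu.2
    obtain ⟨h1', h2', h3'⟩ := hpos v hv.1 hv.2
    have h6 : m ∣ f (m * (t / m + u) - t) := by
      rw [g.dvd _ m h1 h2 hm hmk, h3]
      exact Dvd.intro _ rfl
    have h6' : m ∣ f (m * (t / m + v) - t) := by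
      rw [g.dvd _ m h1' h2' hm hmk, h3']
      exact Dvd.intro _ rfl
    have h7 : f (m * (t / m + u) - t) = f (m * (t / m + v) - t) := by
      rw [← Nat.div_mul_cancel h6, ← Nat.div_mul_cancel h6', huv]
    have h8 := g.inj _ _ h1 h2 h1' h2' h7
    have h9 : m * (t / m + u) = m * (t / m + v) := by omega
    have h10 := Nat.eq_of_mul_eq_mul_left hm h9
    omega
  have hcard := Finset.card_le_card_of_injOn _ hmap hinj
  simp at hcard

/-- restriction to the even values -/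
theorem G.half {k t : ℕ} {f : ℕ → ℕ} (g : G k t f) (hk : 2 ≤ k) :
    G (k / 2) (t / 2) (fun j => f (2 * (t / 2 + j) - t) / 2) := by
  have hc := g.count (m := 2) (by norm_num) hk
  have hpos : ∀ j, 1 ≤ j → j ≤ k / 2 →
      1 ≤ 2 * (t / 2 + j) - t ∧ 2 * (t / 2 + j) - t ≤ k ∧ t + (2 * (t / 2 + j) - t)
        = 2 * (t / 2 + j) := by
    intro j h1 h2; omega
  have heven : ∀ j, 1 ≤ j → j ≤ k / 2 → 2 ∣ f (2 * (t / 2 + j) - t) := by
    intro j h1 h2
    obtain ⟨h3, h4, h5⟩ := hpos j h1 h2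
    rw [g.dvd _ 2 h3 h4 (by norm_num) hk, h5]
    exact Dvd.intro _ rfl
  refine ⟨?_, ?_, ?_, ?_⟩
  · intro j h1 h2
    obtain ⟨h3, h4, h5⟩ := hpos j h1 h2
    obtain ⟨h6, h7⟩ := g.maps _ h3 h4
    have := heven j h1 h2
    omega
  · intro v h1 h2
    obtain ⟨i, hi1, hi2, hi3⟩ := g.surj (2 * v) (by omega) (by omega)
    have h3 : 2 ∣ t + i := by
      rw [← g.dvd i 2 hi1 hi2 (by norm_num) hk, hi3]
      exact Dvd.intro _ rfl
    refine ⟨(t + i) / 2 - t / 2, by omega, by omega, ?_⟩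
    have h4 : 2 * (t / 2 + ((t + i) / 2 - t / 2)) - t = i := by omega
    show f (2 * (t / 2 + ((t + i) / 2 - t / 2)) - t) / 2 = v
    rw [h4, hi3]
    omega
  · intro i j h1 h2 h1' h2' hij
    have h3 := heven i h1 h2
    have h3' := heven j h1' h2'
    obtain ⟨h4, h5, h6⟩ := hpos i h1 h2
    obtain ⟨h4', h5', h6'⟩ := hpos j h1' h2'
    have h7 := g.inj _ _ h4 h5 h4' h5' (by omega)
    omega
  · intro j m h1 h2 h3 h4
    obtain ⟨h5, h6, h7⟩ := hpos j h1 h2
    have h8 := heven j h1 h2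
    have h9 := g.dvd _ (2 * m) h5 h6 (by omega) (by omega)
    rw [h7] at h9
    show m ∣ f (2 * (t / 2 + j) - t) / 2 ↔ _
    rw [Nat.dvd_div_iff_mul_dvd h8, h9]
    exact Nat.mul_dvd_mul_iff_left (by norm_num)

/-- reversal -/
theorem G.rev {k t : ℕ} {f : ℕ → ℕ} (g : G k t f) :
    ∃ t', G k t' (fun i => f (k + 1 - i)) ∧ ∀ m, 1 ≤ m → m ≤ k → m ∣ t' + (t + k + 1) := by
  refine ⟨(k.factorial - 1) * (t + k + 1), ⟨?_, ?_, ?_, ?_⟩, ?_⟩
  · intro i h1 h2
    exact g.maps _ (by omega) (by omega)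
  · intro v h1 h2
    obtain ⟨i, hi1, hi2, hi3⟩ := g.surj v h1 h2
    refine ⟨k + 1 - i, by omega, by omega, ?_⟩
    have : k + 1 - (k + 1 - i) = i := by omega
    show f (k + 1 - (k + 1 - i)) = v
    rw [this, hi3]
  · intro i j h1 h2 h3 h4 h5
    have := g.inj _ _ (by omega) (by omega) (by omega) (by omega) h5
    omega
  · intro i m h1 h2 h3 h4
    show m ∣ f (k + 1 - i) ↔ _
    rw [g.dvd _ m (by omega) (by omega) h3 h4]
    have h5 : m ∣ k.factorial * (t + k + 1) :=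
      Dvd.dvd.mul_right (Nat.dvd_factorial h3 h4) _
    have h6 : (k.factorial - 1) * (t + k + 1) + i + (t + (k + 1 - i))
        = k.factorial * (t + k + 1) := by
      have h7 : (k.factorial - 1) * (t + k + 1) + (t + k + 1) = k.factorial * (t + k + 1) := by
        rw [Nat.sub_mul, one_mul]
        exact Nat.sub_add_cancel (Nat.le_mul_of_pos_left _ (Nat.factorial_pos k))
      omega
    rw [← h6] at h5
    constructor
    · intro h
      exact (Nat.dvd_add_iff_left h).2 h5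
    · intro h
      exact (Nat.dvd_add_iff_right h).2 h5
  · intro m h3 h4
    have h7 : (k.factorial - 1) * (t + k + 1) + (t + k + 1) = k.factorial * (t + k + 1) := by
      rw [Nat.sub_mul, one_mul]
      exact Nat.sub_add_cancel (Nat.le_mul_of_pos_left _ (Nat.factorial_pos k))
    rw [h7]
    exact Dvd.dvd.mul_right (Nat.dvd_factorial h3 h4) _

/-- `Std t h y`: the residue of `t` modulo every prime power `≤ y` is that of `h`. -/
def Std (t h y : ℕ) : Prop := ∀ r, IsPrimePow r → r ≤ y → (r : ℤ) ∣ (t : ℤ) - h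

theorem Std.iff {t h y : ℕ} (s : Std t h y) {r : ℕ} (hr : IsPrimePow r) (hry : r ≤ y) (i : ℕ) :
    r ∣ t + i ↔ r ∣ i + h := by
  have h1 := s r hr hry
  rw [← Int.natCast_dvd_natCast, ← Int.natCast_dvd_natCast (n := i + h)]
  have h2 : ((t + i : ℕ) : ℤ) = ((i + h : ℕ) : ℤ) + ((t : ℤ) - h) := by push_cast; ring
  rw [h2]
  exact (Int.dvd_add_left h1)

theorem prime_pp {p : ℕ} (hp : p.Prime) : IsPrimePow p := hp.isPrimePow

theorem pp2 : IsPrimePow 2 := Nat.prime_two.isPrimePow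
theorem pp3 : IsPrimePow 3 := Nat.prime_three.isPrimePow
theorem pp4 : IsPrimePow 4 := pp2.pow (k := 2) (by norm_num)
theorem pp8 : IsPrimePow 8 := pp2.pow (k := 3) (by norm_num)
theorem pp9 : IsPrimePow 9 := pp3.pow (k := 2) (by norm_num)

end Pool.Agent.H99.WC
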