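import Mathlib
import Pool.Agent.H99.WC.Core

set_option autoImplicit false

/-! # The base case `k = 15` -/

namespace Pool.Agent.H99.WC

/-- the largest `m ≤ 15` dividing `n` -/
def M15 (n : ℕ) : ℕ :=
  if n % 15 = 0 then 15 else if n % 14 = 0 then 14 else if n % 13 = 0 then 13 else
  if n % 12 = 0 then 12 else if n % 11 = 0 then 11 else if n % 10 = 0 then 10 else
  if n % 9 = 0 then 9 else if n % 8 = 0 then 8 else if n % 7 = 0 then 7 else
  if n % 6 = 0 then 6 else if n % 5 = 0 then 5 else if n % 4 = 0 then 4 else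
  if n % 3 = 0 then 3 else if n % 2 = 0 then 2 else 1

def chk (t : ℕ) : Bool :=
  if t % 9 < 3 ∧ t % 7 < 6 ∧ t % 11 < 7 ∧ t % 13 < 11 ∧ t % 10 < 5 ∧ t % 6 < 3 then
    if M15 (t + 1) + M15 (t + 2) + M15 (t + 3) + M15 (t + 4) + M15 (t + 5) + M15 (t + 6)
      + M15 (t + 7) + M15 (t + 8) + M15 (t + 9) + M15 (t + 10) + M15 (t + 11) + M15 (t + 12)
      + M15 (t + 13) + M15 (t + 14) + M15 (t + 15) = 120 then
      t = 0 ∨ t = 360344 else true
  else true

theorem chk_all : ∀ u < 315, (8 * u % 9 < 3 ∧ 8 * u % 10 < 5 ∧ 8 * u % 6 < 3 ∧ 8 * u % 7 < 6) →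
    ∀ v < 143, chk (8 * u + 2520 * v) = true := by
  decide +kernel

theorem M15_eq {t i v : ℕ} (hv1 : 1 ≤ v) (hv : v ≤ 15)
    (h : ∀ m, 1 ≤ m → m ≤ 15 → (m ∣ v ↔ m ∣ t + i)) : M15 (t + i) = v := by
  have key : ∀ m, 1 ≤ m → m ≤ 15 → ((t + i) % m = 0 ↔ v % m = 0) := by
    intro m h1 h2
    rw [← Nat.dvd_iff_mod_eq_zero, ← Nat.dvd_iff_mod_eq_zero, h m h1 h2]
  unfold M15
  rw [if_congr (key 15 (by norm_num) (by norm_num)) rfl rfl]
  simp only [key 14 (by norm_num) (by norm_num), key 13 (by norm_num) (by norm_num),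
    key 12 (by norm_num) (by norm_num), key 11 (by norm_num) (by norm_num),
    key 10 (by norm_num) (by norm_num), key 9 (by norm_num) (by norm_num),
    key 8 (by norm_num) (by norm_num), key 7 (by norm_num) (by norm_num),
    key 6 (by norm_num) (by norm_num), key 5 (by norm_num) (by norm_num),
    key 4 (by norm_num) (by norm_num), key 3 (by norm_num) (by norm_num),
    key 2 (by norm_num) (by norm_num)]
  interval_cases v <;> rfl

theorem G.mod {k t t' : ℕ} {f : ℕ → ℕ} (g : G k t f)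
    (h : ∀ m, 1 ≤ m → m ≤ k → t % m = t' % m) : G k t' f := by
  refine ⟨g.maps, g.surj, g.inj, ?_⟩
  intro i m h1 h2 h3 h4
  rw [g.dvd i m h1 h2 h3 h4, Nat.dvd_iff_mod_eq_zero, Nat.dvd_iff_mod_eq_zero, Nat.add_mod,
    h m h3 h4, ← Nat.add_mod]

theorem base_aux {t : ℕ} {f : ℕ → ℕ} (g : G 15 t f) (ht : t < 360360) :
    t = 0 ∨ t = 360344 := by
  have c8 := g.count (m := 8) (by norm_num) (by norm_num)
  have c9 := g.count (m := 9) (by norm_num) (by norm_num)
  have c7 := g.count (m := 7) (by norm_num) (by norm_num)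
  have c11 := g.count (m := 11) (by norm_num) (by norm_num)
  have c13 := g.count (m := 13) (by norm_num) (by norm_num)
  have c10 := g.count (m := 10) (by norm_num) (by norm_num)
  have c6 := g.count (m := 6) (by norm_num) (by norm_num)
  have hM : ∀ i, 1 ≤ i → i ≤ 15 → M15 (t + i) = f i := by
    intro i h1 h2
    obtain ⟨h3, h4⟩ := g.maps i h1 h2
    exact M15_eq h3 h4 fun m h5 h6 => g.dvd i m h1 h2 h5 h6
  have hbij : ∑ i ∈ Finset.Icc 1 15, f i = ∑ v ∈ Finset.Icc 1 15, v := by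
    apply Finset.sum_bij (fun i _ => f i)
    · intro i hi
      rw [Finset.mem_Icc] at hi ⊢
      exact g.maps i hi.1 hi.2
    · intro i hi j hj hij
      rw [Finset.mem_Icc] at hi hj
      exact g.inj i j hi.1 hi.2 hj.1 hj.2 hij
    · intro v hv
      rw [Finset.mem_Icc] at hv
      obtain ⟨i, h1, h2, h3⟩ := g.surj v hv.1 hv.2
      exact ⟨i, Finset.mem_Icc.2 ⟨h1, h2⟩, h3⟩
    · intro i _; rfl
  have hsum : ∑ i ∈ Finset.Icc 1 15, M15 (t + i) = 120 := by
    rw [Finset.sum_congr rfl fun i hi => hM i (Finset.mem_Icc.1 hi).1 (Finset.mem_Icc.1 hi).2,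
      hbij]
    rfl
  have hsum' : M15 (t + 1) + M15 (t + 2) + M15 (t + 3) + M15 (t + 4) + M15 (t + 5) + M15 (t + 6)
      + M15 (t + 7) + M15 (t + 8) + M15 (t + 9) + M15 (t + 10) + M15 (t + 11) + M15 (t + 12)
      + M15 (t + 13) + M15 (t + 14) + M15 (t + 15) = 120 := by
    rw [← hsum]
    simp [Finset.sum_Icc_succ_top]
  have e0 : 8 * ((t % 2520) / 8) = t % 2520 := by omega
  have m1 : t % 2520 % 9 = t % 9 := Nat.mod_mod_of_dvd t (by norm_num)
  have m2 : t % 2520 % 10 = t % 10 := Nat.mod_mod_of_dvd t (by norm_num)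
  have m3 : t % 2520 % 6 = t % 6 := Nat.mod_mod_of_dvd t (by norm_num)
  have m4 : t % 2520 % 7 = t % 7 := Nat.mod_mod_of_dvd t (by norm_num)
  have hpre : 8 * ((t % 2520) / 8) % 9 < 3 ∧ 8 * ((t % 2520) / 8) % 10 < 5 ∧
      8 * ((t % 2520) / 8) % 6 < 3 ∧ 8 * ((t % 2520) / 8) % 7 < 6 := by
    rw [e0, m1, m2, m3, m4]
    clear hsum hsum' hbij hM
    omega
  have h := chk_all ((t % 2520) / 8) (by omega) hpre (t / 2520) (by omega)
  have ht' : 8 * ((t % 2520) / 8) + 2520 * (t / 2520) = t := by omega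
  rw [ht'] at h
  unfold chk at h
  rw [if_pos (by omega), if_pos hsum'] at h
  simpa using h

/-- all weakly consecutive permutations of `[15]` are the two trivial ones -/
theorem base {t : ℕ} {f : ℕ → ℕ} (g : G 15 t f) :
    360360 ∣ t ∨ 360360 ∣ t + 16 := by
  have g' : G 15 (t % 360360) f := by
    apply g.mod
    intro m h1 h2
    have : m ∣ 360360 := by
      interval_cases m <;> norm_num
    exact (Nat.mod_mod_of_dvd t this).symm
  rcases base_aux g' (Nat.mod_lt _ (by norm_num)) with h | h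
  · left; exact Nat.dvd_of_mod_eq_zero h
  · right; omega

end Pool.Agent.H99.WC
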