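import Mathlib
import Pool.Agent.H99.WC.Core

set_option autoImplicit false

namespace Pool.Agent.H99.WC

/-- if `f i = v` and `t ≡ h` modulo all prime powers `≤ y`, then `i + h` and `v` have the same
prime power divisors `≤ y` -/
theorem G.rel {k t h y : ℕ} {f : ℕ → ℕ} (g : G k t f) (hs : Std t h y) (hyk : y ≤ k)
    {i : ℕ} (hi1 : 1 ≤ i) (hik : i ≤ k) {r : ℕ} (hr : IsPrimePow r) (hry : r ≤ y) :
    r ∣ i + h ↔ r ∣ f i := by
  rw [g.dvd i r hi1 hik hr.pos (hry.trans hyk), hs.iff hr hry]

theorem not_dvd_num {k t h q : ℕ} {f : ℕ → ℕ} (g : G k t f) (hq : 1 ≤ q) (hqk : q ≤ k)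
    (hn : ¬ (q : ℤ) ∣ (t : ℤ) - h) {i : ℕ} (hi1 : 1 ≤ i) (hik : i ≤ k) (hf : q ∣ f i) :
    ¬ q ∣ i + h := by
  intro hd
  apply hn
  have h1 : q ∣ t + i := (g.dvd i q hi1 hik hq hqk).1 hf
  have h2 : (t : ℤ) - h = ((t + i : ℕ) : ℤ) - ((i + h : ℕ) : ℤ) := by push_cast; ring
  rw [h2]
  exact dvd_sub (Int.natCast_dvd_natCast.2 h1) (Int.natCast_dvd_natCast.2 hd)

theorem five_le {p c : ℕ} (hp : p.Prime) (hc : 1 ≤ c) (h15 : 15 ≤ p ^ (c + 1)) : 5 ≤ p ^ c := by
  by_contra hcon
  push Not at hcon
  have h1 : p ≤ p ^ c := Nat.le_self_pow (by omega) p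
  have h2 : p ^ (c + 1) = p ^ c * p := pow_succ p c
  have h3 : p ≤ 4 := by omega
  rw [h2] at h15
  interval_cases p <;> first | omega | exact absurd hp (by norm_num)

/-- the position of a missing proper prime power -/
theorem ppw {k t h p c : ℕ} {f : ℕ → ℕ} (g : G k t f) (hp : p.Prime) (hc : 1 ≤ c)
    (hs : Std t h (p ^ (c + 1) - 1)) (hn : ¬ ((p ^ (c + 1) : ℕ) : ℤ) ∣ (t : ℤ) - h)
    (hqk : p ^ (c + 1) ≤ k) (h5 : k + h < 5 * p ^ (c + 1)) (h15 : 15 ≤ p ^ (c + 1))
    {i : ℕ} (hi1 : 1 ≤ i) (hik : i ≤ k) (hfi : f i = p ^ (c + 1)) : i + h = p ^ c := by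
  have hb5 := five_le hp hc h15
  have hpb : p ^ (c + 1) = p * p ^ c := pow_succ' p c
  have hp2 := hp.two_le
  have hblt : p ^ c < p ^ (c + 1) := Nat.pow_lt_pow_right hp.one_lt (by omega)
  have rel : ∀ r, IsPrimePow r → r ≤ p ^ (c + 1) - 1 → (r ∣ i + h ↔ r ∣ p ^ (c + 1)) := by
    intro r hr hr2
    rw [g.rel hs (by omega) hi1 hik hr hr2, hfi]
  have hnd := not_dvd_num g (by omega) hqk hn hi1 hik (by rw [hfi])
  have hbd : p ^ c ∣ i + h := (rel _ (hp.isPrimePow.pow (by omega)) (by omega)).2
    (pow_dvd_pow p (by omega))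
  obtain ⟨w, hw⟩ := hbd
  by_contra hcon
  have hw1 : w ≠ 1 := by
    intro h1; rw [h1, mul_one] at hw; exact hcon hw
  have hw0 : 0 < w := by
    rcases Nat.eq_zero_or_pos w with h0 | h0
    · rw [h0, mul_zero] at hw; omega
    · exact h0
  have hm := Nat.minFac_prime hw1
  have hmd := Nat.minFac_dvd w
  have hmle := Nat.minFac_le hw0
  by_cases hpp : w.minFac = p
  · apply hnd
    rw [hw, hpb, mul_comm]
    rw [hpp] at hmd
    exact mul_dvd_mul_left _ hmd
  · rcases Nat.lt_or_ge w.minFac (p ^ (c + 1)) with hlt | hge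
    · have h1 := (rel _ hm.isPrimePow (by omega)).1 (by rw [hw]; exact Dvd.dvd.mul_left hmd _)
      exact hpp ((Nat.prime_dvd_prime_iff_eq hm hp).1 (hm.dvd_of_dvd_pow h1))
    · have h1 : 5 * p ^ (c + 1) ≤ p ^ c * w := Nat.mul_le_mul hb5 (hge.trans hmle)
      omega

/-- a missing proper prime power `q` has `2 * q > k` -/
theorem pp_two {k t h p c : ℕ} {f : ℕ → ℕ} (g : G k t f) (hp : p.Prime) (hc : 1 ≤ c)
    (hs : Std t h (p ^ (c + 1) - 1)) (hn : ¬ ((p ^ (c + 1) : ℕ) : ℤ) ∣ (t : ℤ) - h)
    (hqk : 2 * p ^ (c + 1) ≤ k) (h5 : k + h < 5 * p ^ (c + 1)) (h15 : 15 ≤ p ^ (c + 1)) :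
    False := by
  have hb5 := five_le hp hc h15
  have hpb : p ^ (c + 1) = p * p ^ c := pow_succ' p c
  have hp2 := hp.two_le
  have hblt : p ^ c < p ^ (c + 1) := Nat.pow_lt_pow_right hp.one_lt (by omega)
  obtain ⟨i, hi1, hik, hfi⟩ := g.surj (p ^ (c + 1)) (by omega) (by omega)
  obtain ⟨i', hi1', hik', hfi'⟩ := g.surj (2 * p ^ (c + 1)) (by omega) (by omega)
  have hi := ppw g hp hc hs hn (by omega) h5 h15 hi1 hik hfi
  have rel : ∀ r, IsPrimePow r → r ≤ p ^ (c + 1) - 1 → (r ∣ i' + h ↔ r ∣ 2 * p ^ (c + 1)) := by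
    intro r hr hr2
    rw [g.rel hs (by omega) hi1' hik' hr hr2, hfi']
  have hnd := not_dvd_num g (by omega) (by omega) hn hi1' hik'
    (by rw [hfi']; exact Dvd.intro_left _ rfl)
  have hbd : p ^ c ∣ i' + h := (rel _ (hp.isPrimePow.pow (by omega)) (by omega)).2
    (Dvd.dvd.mul_left (pow_dvd_pow p (by omega)) _)
  by_cases h2 : p = 2
  · obtain ⟨w, hw⟩ := hbd
    have hw0 : 0 < w := by
      rcases Nat.eq_zero_or_pos w with h0 | h0
      · rw [h0, mul_zero] at hw; omega
      · exact h0
    have hw1 : w = 1 := by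
      by_contra hw1
      have hm := Nat.minFac_prime hw1
      have hmd := Nat.minFac_dvd w
      have hmle := Nat.minFac_le hw0
      by_cases hpp : w.minFac = p
      · apply hnd
        rw [hw, hpb, mul_comm]
        rw [hpp] at hmd
        exact mul_dvd_mul_left _ hmd
      · rcases Nat.lt_or_ge w.minFac (p ^ (c + 1)) with hlt | hge
        · have h1 := (rel _ hm.isPrimePow (by omega)).1
            (by rw [hw]; exact Dvd.dvd.mul_left hmd _)
          rcases (Nat.Prime.dvd_mul hm).1 h1 with h3 | h3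
          · exact hpp (((Nat.prime_dvd_prime_iff_eq hm Nat.prime_two).1 h3).trans h2.symm)
          · exact hpp ((Nat.prime_dvd_prime_iff_eq hm hp).1 (hm.dvd_of_dvd_pow h3))
        · have h1 : 5 * p ^ (c + 1) ≤ p ^ c * w := Nat.mul_le_mul hb5 (hge.trans hmle)
          omega
    rw [hw1, mul_one] at hw
    have h3 : i = i' := by omega
    rw [h3, hfi'] at hfi
    omega
  · have hcop : Nat.Coprime 2 (p ^ c) :=
      Nat.Coprime.pow_right _ ((Nat.coprime_primes Nat.prime_two hp).2 (Ne.symm h2))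
    have h2d : 2 ∣ i' + h := (rel 2 pp2 (by omega)).2 (Dvd.intro _ rfl)
    obtain ⟨w, hw⟩ := hcop.mul_dvd_of_dvd_of_dvd h2d hbd
    have hw0 : 0 < w := by
      rcases Nat.eq_zero_or_pos w with h0 | h0
      · rw [h0, mul_zero] at hw; omega
      · exact h0
    have hw1 : w = 1 := by
      by_contra hw1
      have hm := Nat.minFac_prime hw1
      have hmd := Nat.minFac_dvd w
      have hmle := Nat.minFac_le hw0
      by_cases hpp : w.minFac = p
      · apply hnd
        rw [hw, hpb, mul_comm p, mul_assoc]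
        rw [hpp] at hmd
        exact Dvd.dvd.mul_left (mul_dvd_mul_left _ hmd) _
      · by_cases hpp2 : w.minFac = 2
        · rw [hpp2] at hmd
          have h4 : 4 ∣ i' + h := by
            rw [hw]
            obtain ⟨u, hu⟩ := hmd
            exact ⟨p ^ c * u, by rw [hu]; ring⟩
          have h5 := (rel 4 pp4 (by omega)).1 h4
          have h6 : 2 ∣ p ^ (c + 1) := by omega
          exact h2 ((Nat.prime_dvd_prime_iff_eq Nat.prime_two hp).1
            (Nat.prime_two.dvd_of_dvd_pow h6)).symm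
        · rcases Nat.lt_or_ge w.minFac (p ^ (c + 1)) with hlt | hge
          · have h1 := (rel _ hm.isPrimePow (by omega)).1
              (by rw [hw]; exact Dvd.dvd.mul_left hmd _)
            rcases (Nat.Prime.dvd_mul hm).1 h1 with h3 | h3
            · exact hpp2 ((Nat.prime_dvd_prime_iff_eq hm Nat.prime_two).1 h3)
            · exact hpp ((Nat.prime_dvd_prime_iff_eq hm hp).1 (hm.dvd_of_dvd_pow h3))
          · have h1 : 5 * p ^ (c + 1) ≤ p ^ c * w := Nat.mul_le_mul hb5 (hge.trans hmle)
            have h2 : 2 * p ^ c * w = 2 * (p ^ c * w) := by ring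
            omega
    rw [hw1, mul_one] at hw
    have h3 : p ^ (c + 1) ∣ t + i := (g.dvd i _ hi1 hik (by omega) (by omega)).1 (by rw [hfi])
    have h4 : p ^ (c + 1) ∣ t + i' := (g.dvd i' _ hi1' hik' (by omega) (by omega)).1
      (by rw [hfi']; exact Dvd.intro_left _ rfl)
    have h5 : p ^ (c + 1) ∣ (t + i') - (t + i) := Nat.dvd_sub h4 h3
    have h6 : (t + i') - (t + i) = p ^ c := by omega
    rw [h6] at h5
    have := Nat.le_of_dvd (by positivity) h5
    omega

/-- the position of `j * q`, `q` the least missing prime power and a prime -/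
theorem slem {k t h q : ℕ} {f : ℕ → ℕ} (g : G k t f) (hq : q.Prime) (h15 : 15 ≤ q)
    (hs : Std t h (q - 1)) (hn : ¬ (q : ℤ) ∣ (t : ℤ) - h) {j : ℕ} (hj1 : 1 ≤ j) (hj4 : j ≤ 4)
    (hjk : j * q ≤ k) {i : ℕ} (hi1 : 1 ≤ i) (hik : i ≤ k) (hfi : f i = j * q) :
    i + h = j ∨ j * (q + 1) ≤ i + h := by
  have hqk : q ≤ k := (Nat.le_mul_of_pos_left q hj1).trans hjk
  have rel : ∀ r, IsPrimePow r → r ≤ q - 1 → (r ∣ i + h ↔ r ∣ j * q) := by
    intro r hr hr2
    rw [g.rel hs (by omega) hi1 hik hr hr2, hfi]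
  have hnd := not_dvd_num g (by omega) hqk hn hi1 hik (by rw [hfi]; exact Dvd.intro_left _ rfl)
  have hjd : j ∣ i + h := by
    interval_cases j
    · exact one_dvd _
    · exact (rel 2 pp2 (by omega)).2 (Dvd.intro _ rfl)
    · exact (rel 3 pp3 (by omega)).2 (Dvd.intro _ rfl)
    · exact (rel 4 pp4 (by omega)).2 (Dvd.intro _ rfl)
  obtain ⟨w, hw⟩ := hjd
  by_cases hw1 : w = 1
  · left; rw [hw, hw1, mul_one]
  right
  have hw0 : 0 < w := by
    rcases Nat.eq_zero_or_pos w with h0 | h0
    · rw [h0, mul_zero] at hw; omega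
    · exact h0
  have hm := Nat.minFac_prime hw1
  have hmd := Nat.minFac_dvd w
  have hmle := Nat.minFac_le hw0
  have hge : q + 1 ≤ w.minFac := by
    by_contra hcon
    push Not at hcon
    have hne : w.minFac ≠ q := by
      intro he
      rw [he] at hmd
      exact hnd (by rw [hw]; exact Dvd.dvd.mul_left hmd _)
    have hmi : w.minFac ∣ i + h := by rw [hw]; exact Dvd.dvd.mul_left hmd _
    have h1 := (rel _ hm.isPrimePow (by omega)).1 hmi
    have h2 : w.minFac ∣ j := by
      rcases (Nat.Prime.dvd_mul hm).1 h1 with h3 | h3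
      · exact h3
      · exact absurd ((Nat.prime_dvd_prime_iff_eq hm hq).1 h3) hne
    have hq2 : ¬ 2 ∣ q := fun hd => by
      have := (Nat.prime_dvd_prime_iff_eq Nat.prime_two hq).1 hd
      omega
    have hq3 : ¬ 3 ∣ q := fun hd => by
      have := (Nat.prime_dvd_prime_iff_eq Nat.prime_three hq).1 hd
      omega
    interval_cases j
    · exact hm.one_lt.ne' (Nat.dvd_one.1 h2)
    · have h3 := (Nat.prime_dvd_prime_iff_eq hm Nat.prime_two).1 h2
      rw [h3] at hmd
      have h4 : 4 ∣ i + h := by omega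
      have h5 := (rel 4 pp4 (by omega)).1 h4
      omega
    · have h3 := (Nat.prime_dvd_prime_iff_eq hm Nat.prime_three).1 h2
      rw [h3] at hmd
      have h4 : 9 ∣ i + h := by omega
      have h5 := (rel 9 pp9 (by omega)).1 h4
      omega
    · have h3 : w.minFac ∣ 2 ^ 2 := h2
      have h3' := (Nat.prime_dvd_prime_iff_eq hm Nat.prime_two).1 (hm.dvd_of_dvd_pow h3)
      rw [h3'] at hmd
      have h4 : 8 ∣ i + h := by omega
      have h5 := (rel 8 pp8 (by omega)).1 h4
      omega
  rw [hw]
  exact Nat.mul_le_mul_left j (hge.trans hmle)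

/-- packaging: position of `j * q` -/
theorem posn {k t h q : ℕ} {f : ℕ → ℕ} (g : G k t f) (hq : q.Prime) (h15 : 15 ≤ q)
    (hs : Std t h (q - 1)) (hn : ¬ (q : ℤ) ∣ (t : ℤ) - h) {j : ℕ} (hj1 : 1 ≤ j) (hj4 : j ≤ 4)
    (hjk : j * q ≤ k) : ∃ i s, 1 ≤ i ∧ i ≤ k ∧ f i = j * q ∧ t % q + i = q * s ∧ 1 ≤ s ∧
      (i + h = j ∨ j * (q + 1) ≤ i + h) := by
  have hqk : q ≤ k := (Nat.le_mul_of_pos_left q hj1).trans hjk
  obtain ⟨i, hi1, hik, hfi⟩ := g.surj (j * q) (by nlinarith) hjk
  have h1 : q ∣ t + i := (g.dvd i q hi1 hik (by omega) hqk).1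
    (by rw [hfi]; exact Dvd.intro_left _ rfl)
  have h2 : q ∣ t % q + i := by
    have h3 : t + i = q * (t / q) + (t % q + i) := by
      have := Nat.div_add_mod t q
      omega
    rw [h3] at h1
    exact (Nat.dvd_add_right (Dvd.intro _ rfl)).1 h1
  obtain ⟨s, hs'⟩ := h2
  refine ⟨i, s, hi1, hik, hfi, hs', ?_, slem g hq h15 hs hn hj1 hj4 hjk hi1 hik hfi⟩
  rcases Nat.eq_zero_or_pos s with h0 | h0
  · rw [h0, mul_zero] at hs'; omega
  · exact h0

theorem s_le {q s T k a : ℕ} (h1 : T + k < q * (a + 1)) {i : ℕ} (hik : i ≤ k)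
    (h2 : T + i = q * s) : s ≤ a := by
  have h3 : q * s < q * (a + 1) := by omega
  have := lt_of_mul_lt_mul_left h3 (Nat.zero_le q)
  omega

/-- the heart: the least missing prime power is not a prime `q` with `2 q + 2 ≤ k ≤ 4 q + 3` -/
theorem ap_prime {k t h q : ℕ} {f : ℕ → ℕ} (g : G k t f) (hq : q.Prime) (h15 : 15 ≤ q)
    (hs : Std t h (q - 1)) (hn : ¬ (q : ℤ) ∣ (t : ℤ) - h) (hh : h ≤ 7)
    (h2k : 2 * q + 2 ≤ k) (hk4 : k ≤ 4 * q + 3) : False := by
  have hTq : t % q < q := Nat.mod_lt _ (by omega)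
  have hcount := g.count (m := q) (by omega) (by omega)
  have hTh : t % q ≠ h := by
    intro he
    apply hn
    have h1 := Nat.div_add_mod t q
    rw [he] at h1
    refine ⟨(t / q : ℕ), ?_⟩
    have : (t : ℤ) = q * (t / q : ℕ) + h := by exact_mod_cast h1.symm
    rw [this]; ring
  have hkmod := Nat.div_add_mod k q
  have hq2 : ¬ 2 ∣ q := fun hd => by
    have := (Nat.prime_dvd_prime_iff_eq Nat.prime_two hq).1 hd
    omega
  have hq3 : ¬ 3 ∣ q := fun hd => by
    have := (Nat.prime_dvd_prime_iff_eq Nat.prime_three hq).1 hd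
    omega
  obtain ⟨i1, s1, a1, b1, c1, d1, e1, S1⟩ := posn g hq h15 hs hn (j := 1) le_rfl (by norm_num)
    (by omega)
  obtain ⟨i2, s2, a2, b2, c2, d2, e2, S2⟩ := posn g hq h15 hs hn (j := 2) (by norm_num)
    (by norm_num) (by omega)
  have n12 : s1 ≠ s2 := by
    rintro rfl
    have : i1 = i2 := by omega
    rw [this, c2] at c1
    omega
  -- the final contradiction when `t % q < h`
  have fin1 : t % q < h → s1 = 1 → s2 = 2 → False := by
    intro hlt h1 h2
    subst h1 h2
    have r1 := g.rel hs (by omega) a1 b1 pp2 (by omega)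
    have r2 := g.rel hs (by omega) a2 b2 pp2 (by omega)
    have r3 := g.rel hs (by omega) a2 b2 pp4 (by omega)
    have r4 := g.rel hs (by omega) a1 b1 pp3 (by omega)
    have r5 := g.rel hs (by omega) a2 b2 pp3 (by omega)
    obtain ⟨d, hd⟩ : ∃ d, h = t % q + d := ⟨h - t % q, by omega⟩
    have e1 : i1 + h = q + d := by omega
    have e2 : i2 + h = 2 * q + d := by omega
    rw [c1, e1] at r1 r4
    rw [c2, e2] at r2 r3 r5
    have hd1 : 1 ≤ d := by omega
    have hd7 : d ≤ 7 := by omega
    clear S1 S2 hcount hkmod hd e1 e2 hTq hTh d1 d2 hs hn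
    have hq3' : q % 3 = 1 ∨ q % 3 = 2 := by omega
    interval_cases d
    · omega
    · omega
    · omega
    · rcases hq3' with h3 | h3
      · have : 3 ∣ 2 * q + 4 := by omega
        have := r5.1 this
        omega
      · have : 3 ∣ q + 4 := by omega
        have := r4.1 this
        omega
    · omega
    · omega
    · omega
  rcases Nat.lt_or_ge k (3 * q) with hk3 | hk3
  · -- a = 2
    have hkd : k / q = 2 := by
      apply Nat.div_eq_of_lt_le <;> omega
    rw [hkd] at hkmod
    have l1 : s1 ≤ 2 := s_le (q := q) (T := t % q) (k := k) (by omega) b1 d1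
    have l2 : s2 ≤ 2 := s_le (q := q) (T := t % q) (k := k) (by omega) b2 d2
    rcases Nat.lt_or_gt_of_ne hTh with hlt | hgt
    · have g2 : s2 = 2 := by
        by_contra h
        have : s2 = 1 := by omega
        subst this
        omega
      exact fin1 hlt (by omega) g2
    · have g2 : s2 = 1 := by
        by_contra h
        have : s2 = 2 := by omega
        subst this
        omega
      subst g2
      omega
  · obtain ⟨i3, s3, a3, b3, c3, d3, e3, S3⟩ := posn g hq h15 hs hn (j := 3) (by norm_num)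
      (by norm_num) (by omega)
    have n13 : s1 ≠ s3 := by
      rintro rfl
      have : i1 = i3 := by omega
      rw [this, c3] at c1
      omega
    have n23 : s2 ≠ s3 := by
      rintro rfl
      have : i2 = i3 := by omega
      rw [this, c3] at c2
      omega
    rcases Nat.lt_or_ge k (4 * q) with hk4' | hk4'
    · -- a = 3
      have hkd : k / q = 3 := by
        apply Nat.div_eq_of_lt_le <;> omega
      rw [hkd] at hkmod
      have l1 : s1 ≤ 3 := s_le (q := q) (T := t % q) (k := k) (by omega) b1 d1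
      have l2 : s2 ≤ 3 := s_le (q := q) (T := t % q) (k := k) (by omega) b2 d2
      have l3 : s3 ≤ 3 := s_le (q := q) (T := t % q) (k := k) (by omega) b3 d3
      rcases Nat.lt_or_gt_of_ne hTh with hlt | hgt
      · have g3 : s3 = 3 := by
          by_contra h
          have h' : s3 ≤ 2 := by omega
          interval_cases s3 <;> omega
        have g2 : s2 = 2 := by
          by_contra h
          have : s2 = 1 := by omega
          subst this
          omega
        exact fin1 hlt (by omega) g2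
      · have g3 : s3 = 1 := by
          by_contra h
          have h' : 2 ≤ s3 := by omega
          interval_cases s3 <;> omega
        subst g3
        have g2 : s2 = 3 := by
          by_contra h
          have : s2 = 2 := by omega
          subst this
          omega
        subst g2
        have r2 := g.rel hs (by omega) a2 b2 pp2 (by omega)
        rw [c2] at r2
        omega
    · -- a = 4
      obtain ⟨i4, s4, a4, b4, c4, d4, e4, S4⟩ := posn g hq h15 hs hn (j := 4) (by norm_num)
        (by norm_num) (by omega)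
      have n14 : s1 ≠ s4 := by
        rintro rfl
        have : i1 = i4 := by omega
        rw [this, c4] at c1
        omega
      have n24 : s2 ≠ s4 := by
        rintro rfl
        have : i2 = i4 := by omega
        rw [this, c4] at c2
        omega
      have n34 : s3 ≠ s4 := by
        rintro rfl
        have : i3 = i4 := by omega
        rw [this, c4] at c3
        omega
      have hkd : k / q = 4 := by
        apply Nat.div_eq_of_lt_le <;> omega
      rw [hkd] at hkmod
      have l1 : s1 ≤ 4 := s_le (q := q) (T := t % q) (k := k) (by omega) b1 d1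
      have l2 : s2 ≤ 4 := s_le (q := q) (T := t % q) (k := k) (by omega) b2 d2
      have l3 : s3 ≤ 4 := s_le (q := q) (T := t % q) (k := k) (by omega) b3 d3
      have l4 : s4 ≤ 4 := s_le (q := q) (T := t % q) (k := k) (by omega) b4 d4
      rcases Nat.lt_or_gt_of_ne hTh with hlt | hgt
      · have g4 : s4 = 4 := by
          by_contra h
          have h' : s4 ≤ 3 := by omega
          interval_cases s4 <;> omega
        have g3 : s3 = 3 := by
          by_contra h
          have h' : s3 ≤ 2 := by omega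
          interval_cases s3 <;> omega
        have g2 : s2 = 2 := by
          by_contra h
          have : s2 = 1 := by omega
          subst this
          omega
        exact fin1 hlt (by omega) g2
      · have g4 : s4 = 1 := by
          by_contra h
          have h' : 2 ≤ s4 := by omega
          interval_cases s4 <;> omega
        subst g4
        have g3 : s3 = 4 := by
          by_contra h
          have h' : s3 ≤ 3 := by omega
          have h'' : 2 ≤ s3 := by omega
          interval_cases s3 <;> omega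
        subst g3
        have r3 := g.rel hs (by omega) a3 b3 pp3 (by omega)
        rw [c3] at r3
        omega

end Pool.Agent.H99.WC
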