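import Mathlib
import Pool.Agent.H99.WC.Step
import Pool.Agent.H99.WC.Base

set_option autoImplicit false

namespace Pool.Agent.H99.WC

theorem Std.mono {t h y z : ℕ} (s : Std t h y) (hz : z ≤ y) : Std t h z :=
  fun r hr hrz => s r hr (hrz.trans hz)

/-- the least missing prime power -/
theorem exists_least {t h z : ℕ} (hn : ¬ Std t h z) :
    ∃ q, IsPrimePow q ∧ q ≤ z ∧ ¬ (q : ℤ) ∣ (t : ℤ) - h ∧ Std t h (q - 1) := by
  classical
  unfold Std at hn
  push Not at hn
  obtain ⟨h1, h2, h3⟩ := Nat.find_spec hn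
  refine ⟨Nat.find hn, h1, h2, h3, ?_⟩
  intro r hr hrq
  by_contra hcon
  have h4 : r < Nat.find hn := by
    have := h1.pos
    omega
  exact Nat.find_min hn h4 ⟨hr, by omega, hcon⟩

theorem extend {k t h y : ℕ} {f : ℕ → ℕ} (g : G k t f) (hh : h ≤ 7) (hy : 14 ≤ y)
    (hs : Std t h y) (hk : k ≤ 4 * y + 7) (hk30 : 30 ≤ k) : Std t h (k / 2 - 1) ∧ h ≤ 3 := by
  have h1 : Std t h (k / 2 - 1) := by
    by_contra hcon
    obtain ⟨q, hq, hqz, hn, hsq⟩ := exists_least hcon
    have hyq : y < q := by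
      by_contra hle
      exact hn (hs q hq (by omega))
    obtain ⟨p, c, hp, hc, rfl⟩ := (isPrimePow_nat_iff q).1 hq
    obtain ⟨c, rfl⟩ : ∃ d, c = d + 1 := ⟨c - 1, by omega⟩
    rcases Nat.eq_zero_or_pos c with h0 | hpos
    · subst h0
      rw [zero_add, pow_one] at *
      exact ap_prime g hp (by omega) hsq hn hh (by omega) (by omega)
    · exact pp_two g hp hpos hsq hn (by omega) (by omega) (by omega)
  refine ⟨h1, ?_⟩
  obtain ⟨i, hi1, hik, hfi⟩ := g.surj 4 (by norm_num) (by omega)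
  have rel : ∀ r, IsPrimePow r → r ≤ k / 2 - 1 → (r ∣ i + h ↔ r ∣ 4) := by
    intro r hr hr2
    rw [g.rel h1 (by omega) hi1 hik hr hr2, hfi]
  have h4 : 4 ∣ i + h := (rel 4 pp4 (by omega)).2 dvd_rfl
  obtain ⟨w, hw⟩ := h4
  have hw0 : 0 < w := by omega
  have hw1 : w = 1 := by
    by_contra hw1
    have hm := Nat.minFac_prime hw1
    have hmd := Nat.minFac_dvd w
    have hmle := Nat.minFac_le hw0
    rcases Nat.lt_or_ge w.minFac (k / 2) with hlt | hge
    · have h5 := (rel _ hm.isPrimePow (by omega)).1 (by rw [hw]; exact Dvd.dvd.mul_left hmd _)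
      have h6 : w.minFac ∣ 2 ^ 2 := h5
      have h7 := (Nat.prime_dvd_prime_iff_eq hm Nat.prime_two).1 (hm.dvd_of_dvd_pow h6)
      rw [h7] at hmd
      have h8 : 8 ∣ i + h := by omega
      have := (rel 8 pp8 (by omega)).1 h8
      omega
    · omega
  omega

/-- rigidity of the small prime powers -/
def R (k y : ℕ) : Prop := ∀ (t : ℕ) (f : ℕ → ℕ), G k t f →
  ∃ h ≤ 3, Std t h y ∨ ∀ r, IsPrimePow r → r ≤ y → r ∣ t + k + 1 + h

theorem R_base : R 15 15 := by
  intro t f g
  refine ⟨0, by norm_num, ?_⟩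
  have key : ∀ r, IsPrimePow r → r ≤ 15 → r ∣ 360360 := by
    intro r hr hr2
    have := hr.pos
    interval_cases r <;> norm_num
  rcases base g with h | h
  · left
    intro r hr hr2
    rw [Nat.cast_zero, sub_zero]
    exact Int.natCast_dvd_natCast.2 ((key r hr hr2).trans h)
  · right
    intro r hr hr2
    exact (key r hr hr2).trans h

theorem R_step {K k y : ℕ} (hR : R K y) (hK : k / 2 = K) (hy : 14 ≤ y) (hyk : y ≤ k)
    (hk : k ≤ 4 * y + 7) (hk30 : 30 ≤ k) : R k (k / 2 - 1) := by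
  intro t f g
  have hc2 := g.count (m := 2) (by norm_num) (by omega)
  obtain ⟨h', hh', hor⟩ := hR (t / 2) _ (hK ▸ g.half (by omega))
  rcases hor with hs | hs
  · have h1 : Std t (2 * h' + t % 2) y := by
      intro r hr hry
      have h2 := hs r hr hry
      have h3 : (t : ℤ) - ((2 * h' + t % 2 : ℕ) : ℤ) = 2 * (((t / 2 : ℕ) : ℤ) - h') := by
        have := Nat.div_add_mod t 2
        push_cast
        omega
      rw [h3]
      exact Dvd.dvd.mul_left h2 _
    obtain ⟨h2, h3⟩ := extend g (by omega) hy h1 hk hk30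
    exact ⟨_, h3, Or.inl h2⟩
  · obtain ⟨t', g', hm⟩ := g.rev
    have key : ∀ r, IsPrimePow r → r ≤ y → r ∣ t + k + 1 + (2 * h' + 1 - (k % 2 + t % 2)) := by
      intro r hr hry
      have h2 := hs r hr hry
      have h3 : t + k + 1 + (2 * h' + 1 - (k % 2 + t % 2)) = 2 * (t / 2 + K + 1 + h') := by
        have := Nat.div_add_mod t 2
        have := Nat.div_add_mod k 2
        omega
      rw [h3]
      exact Dvd.dvd.mul_left h2 _
    have conv : ∀ (r h : ℕ), r ∣ t' + (t + k + 1) →
        ((r : ℤ) ∣ (t' : ℤ) - h ↔ r ∣ t + k + 1 + h) := by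
      intro r h hr
      have h2 : ((t' + (t + k + 1) : ℕ) : ℤ) = ((t' : ℤ) - h) + ((t + k + 1 + h : ℕ) : ℤ) := by
        push_cast; ring
      have h3 := Int.natCast_dvd_natCast.2 hr
      rw [h2] at h3
      rw [← Int.natCast_dvd_natCast]
      exact ⟨fun h4 => (Int.dvd_add_right h4).1 h3, fun h4 => (Int.dvd_add_left h4).1 h3⟩
    have h1 : Std t' (2 * h' + 1 - (k % 2 + t % 2)) y := by
      intro r hr hry
      exact (conv r _ (hm r hr.pos (hry.trans hyk))).2 (key r hr hry)
    obtain ⟨h2, h3⟩ := extend g' (by omega) hy h1 hk hk30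
    refine ⟨_, h3, Or.inr ?_⟩
    intro r hr hry
    exact (conv r _ (hm r hr.pos (by omega))).1 (h2 r hr hry)

theorem R_31 : R 31 14 := R_step R_base rfl (by norm_num) (by norm_num) (by norm_num) (by norm_num)

theorem R_63 : R 63 30 := R_step R_31 rfl (by norm_num) (by norm_num) (by norm_num) (by norm_num)

/-- the chain: leading seven binary digits equal to one -/
theorem R_chain : ∀ (c k : ℕ), 127 * 2 ^ c ≤ k → k < 128 * 2 ^ c → R k (k / 2 - 1) := by
  intro c
  induction c with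
  | zero =>
    intro k h1 h2
    have : k = 127 := by omega
    subst this
    exact R_step R_63 rfl (by norm_num) (by norm_num) (by norm_num) (by norm_num)
  | succ c ih =>
    intro k h1 h2
    have e : 2 ^ (c + 1) = 2 * 2 ^ c := by rw [pow_succ]; ring
    have hpos : 1 ≤ 2 ^ c := Nat.one_le_two_pow
    rw [e] at h1 h2
    have h3 := ih (k / 2) (by omega) (by omega)
    exact R_step h3 rfl (by omega) (by omega) (by omega) (by omega)

end Pool.Agent.H99.WC
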