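import Mathlib
import Pool.Agent.H99.WC.Induct

set_option autoImplicit false

namespace Pool.Agent.H99.WC

theorem final_std {k t : ℕ} {f : ℕ → ℕ} (g : G k t f) (hs : Std t 0 (k / 2 - 1))
    (hk : k % 12 = 3) (h30 : 32 ≤ k)
    (hbad : ∀ p b : ℕ, p.Prime → 2 ≤ b → ¬ (p ^ b ≤ k ∧ k < p ^ b + p ^ (b - 1))) :
    Std t 0 k := by
  by_contra hcon
  obtain ⟨q, hq, hqk, hn, hsq⟩ := exists_least hcon
  have hKq : k / 2 - 1 < q := by
    by_contra hle
    exact hn (hs q hq (by omega))
  have hqt : ¬ q ∣ t := by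
    intro h
    apply hn
    rw [Nat.cast_zero, sub_zero]
    exact Int.natCast_dvd_natCast.2 h
  have hT0 : t % q ≠ 0 := fun h => hqt (Nat.dvd_of_mod_eq_zero h)
  have hTq : t % q < q := Nat.mod_lt _ (by omega)
  have hcount := g.count (m := q) (by omega) hqk
  obtain ⟨p, c, hp, hc, rfl⟩ := (isPrimePow_nat_iff q).1 hq
  obtain ⟨c, rfl⟩ : ∃ d, c = d + 1 := ⟨c - 1, by omega⟩
  rcases Nat.eq_zero_or_pos c with h0 | hpos
  · subst h0
    rw [zero_add, pow_one] at *
    rcases Nat.lt_or_ge k (2 * p) with hlt | hge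
    · obtain ⟨i, s, h1, h2, h3, h4, h5, h6⟩ := posn g hp (by omega) hsq hn (j := 1) le_rfl
        (by norm_num) (by omega)
      have hkd : k % p = k - p := by
        rw [Nat.mod_eq_sub_mod hqk, Nat.mod_eq_of_lt (by omega)]
      rw [hkd] at hcount
      have hs1 : s ≤ 1 := s_le (q := p) (T := t % p) (k := k) (a := 1) (by omega) h2 h4
      have : s = 1 := by omega
      subst this
      have hkp : k = p := by omega
      have h3d : 3 ∣ p := by omega
      have := (Nat.prime_dvd_prime_iff_eq Nat.prime_three hp).1 h3d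
      omega
    · have hk2 : k = 2 * p + 1 := by omega
      obtain ⟨i, s, h1, h2, h3, h4, h5, h6⟩ := posn g hp (by omega) hsq hn (j := 1) le_rfl
        (by norm_num) (by omega)
      obtain ⟨i', s', h1', h2', h3', h4', h5', h6'⟩ := posn g hp (by omega) hsq hn (j := 2)
        (by norm_num) (by norm_num) (by omega)
      have hi' : i' = 2 := by omega
      subst hi'
      have hs' : s' ≤ 1 := s_le (q := p) (T := t % p) (k := 2) (a := 1) (by omega) le_rfl h4'
      have : s' = 1 := by omega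
      subst this
      have hs2 : s ≤ 2 := s_le (q := p) (T := t % p) (k := k) (a := 2) (by omega) h2 h4
      have hi : i = p + 2 := by
        interval_cases s <;> omega
      have r3 := g.rel hsq (by omega) h1 h2 pp3 (by omega)
      rw [h3, hi] at r3
      have h3d : 3 ∣ p + 2 := by omega
      have := r3.1 (by omega)
      omega
  · rcases Nat.lt_or_ge k (2 * p ^ (c + 1)) with hlt | hge
    · obtain ⟨i, hi1, hik, hfi⟩ := g.surj (p ^ (c + 1)) (by omega) hqk
      have hi := ppw g hp hpos hsq hn hqk (by omega) (by omega) hi1 hik hfi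
      have hblt : p ^ c < p ^ (c + 1) := Nat.pow_lt_pow_right hp.one_lt (by omega)
      have h1 : p ^ (c + 1) ∣ t + i := (g.dvd i _ hi1 hik (by omega) hqk).1 (by rw [hfi])
      have h2 : p ^ (c + 1) ∣ t % p ^ (c + 1) + i := by
        have h3 : t + i = p ^ (c + 1) * (t / p ^ (c + 1)) + (t % p ^ (c + 1) + i) := by
          have := Nat.div_add_mod t (p ^ (c + 1))
          omega
        rw [h3] at h1
        exact (Nat.dvd_add_right (Dvd.intro _ rfl)).1 h1
      obtain ⟨s, hs'⟩ := h2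
      have hkd : k % p ^ (c + 1) = k - p ^ (c + 1) := by
        rw [Nat.mod_eq_sub_mod hqk, Nat.mod_eq_of_lt (by omega)]
      rw [hkd] at hcount
      have hs1 : s ≤ 1 := s_le (q := p ^ (c + 1)) (T := t % p ^ (c + 1)) (k := k) (a := 1)
        (by omega) hik hs'
      have hs0 : s = 1 := by
        rcases Nat.eq_zero_or_pos s with h0 | h0
        · rw [h0, mul_zero] at hs'; omega
        · omega
      rw [hs0, mul_one] at hs'
      apply hbad p (c + 1) hp (by omega)
      refine ⟨hqk, ?_⟩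
      rw [Nat.add_sub_cancel]
      omega
    · exact pp_two g hp hpos hsq hn hge (by omega) (by omega)

theorem eq_id {k t : ℕ} {f : ℕ → ℕ} (g : G k t f) (hs : Std t 0 k) {i : ℕ} (hi1 : 1 ≤ i)
    (hik : i ≤ k) : f i = i := by
  obtain ⟨h1, h2⟩ := g.maps i hi1 hik
  apply Nat.dvd_antisymm
  · rw [Nat.dvd_iff_prime_pow_dvd_dvd]
    intro p e hp hd
    rcases Nat.eq_zero_or_pos e with h0 | h0
    · rw [h0, pow_zero]; exact one_dvd _
    · exact (g.rel hs le_rfl hi1 hik (hp.isPrimePow.pow h0.ne')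
        ((Nat.le_of_dvd h1 hd).trans h2)).2 hd
  · rw [Nat.dvd_iff_prime_pow_dvd_dvd]
    intro p e hp hd
    rcases Nat.eq_zero_or_pos e with h0 | h0
    · rw [h0, pow_zero]; exact one_dvd _
    · exact (g.rel hs le_rfl hi1 hik (hp.isPrimePow.pow h0.ne')
        ((Nat.le_of_dvd hi1 hd).trans hik)).1 hd

theorem std_zero {k t h : ℕ} {f : ℕ → ℕ} (g : G k t f) (hs : Std t h (k / 2 - 1))
    (hh : h ≤ 3) (hk : k % 12 = 3) (h30 : 32 ≤ k) : h = 0 := by
  have hc := g.count (m := 4) (by norm_num) (by omega)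
  have h4 := hs 4 pp4 (by omega)
  have : (4 : ℤ) ∣ (t : ℤ) - h := by exact_mod_cast h4
  omega

/-- **Rigidity.** -/
theorem rigid {k c : ℕ} (hk : k % 12 = 3) (h1 : 127 * 2 ^ c ≤ k) (h2 : k < 128 * 2 ^ c)
    (hbad : ∀ p b : ℕ, p.Prime → 2 ≤ b → ¬ (p ^ b ≤ k ∧ k < p ^ b + p ^ (b - 1)))
    {t : ℕ} {f : ℕ → ℕ} (g : G k t f) :
    (∀ i, 1 ≤ i → i ≤ k → f i = i) ∨ (∀ i, 1 ≤ i → i ≤ k → f i = k + 1 - i) := by
  have hpos : 1 ≤ 2 ^ c := Nat.one_le_two_pow
  obtain ⟨h, hh, hor⟩ := R_chain c k h1 h2 t f g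
  rcases hor with hs | hs
  · have h0 := std_zero g hs hh hk (by omega)
    subst h0
    left
    intro i hi1 hik
    exact eq_id g (final_std g hs hk (by omega) hbad) hi1 hik
  · right
    obtain ⟨t', g', hm⟩ := g.rev
    have hs' : Std t' h (k / 2 - 1) := by
      intro r hr hry
      have h3 := hm r hr.pos (by omega)
      have h4 := hs r hr hry
      have h5 : ((t' + (t + k + 1) : ℕ) : ℤ) = ((t' : ℤ) - h) + ((t + k + 1 + h : ℕ) : ℤ) := by
        push_cast; ring
      have h6 := Int.natCast_dvd_natCast.2 h3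
      rw [h5] at h6
      exact (Int.dvd_add_left (Int.natCast_dvd_natCast.2 h4)).1 h6
    have h0 := std_zero g' hs' hh hk (by omega)
    subst h0
    intro i hi1 hik
    have h3 := eq_id g' (final_std g' hs' hk (by omega) hbad) (i := k + 1 - i) (by omega)
      (by omega)
    have h4 : k + 1 - (k + 1 - i) = i := by omega
    rw [h4] at h3
    exact h3

end Pool.Agent.H99.WC
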