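import Mathlib
import Pool.Agent.H99.WC.Final

set_option autoImplicit false

namespace Pool.Agent.H99.WC

/-- the positions of the multiples of `m` form a single residue class -/
theorem one_class {k : ℕ} {f : ℕ → ℕ}
    (maps : ∀ i, 1 ≤ i → i ≤ k → 1 ≤ f i ∧ f i ≤ k)
    (inj : ∀ i j, 1 ≤ i → i ≤ k → 1 ≤ j → j ≤ k → f i = f j → i = j)
    (wc : ∀ m i j, 1 ≤ m → m ≤ k → 1 ≤ i → i ≤ k → 1 ≤ j → j ≤ k → m ∣ f i → i % m = j % m →
      m ∣ f j) {m i j : ℕ} (hm1 : 1 ≤ m) (hmk : m ≤ k) (hi1 : 1 ≤ i) (hik : i ≤ k) (hj1 : 1 ≤ j)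
    (hjk : j ≤ k) (hi : m ∣ f i) (hj : m ∣ f j) : i % m = j % m := by
  by_contra hne
  set r : Bool → ℕ := fun b => if b then (i - 1) % m + 1 else (j - 1) % m + 1 with hr
  have hrm : ∀ b, 1 ≤ r b ∧ r b ≤ m := by
    intro b
    have h1 := Nat.mod_lt (i - 1) hm1
    have h2 := Nat.mod_lt (j - 1) hm1
    cases b <;> simp [hr] <;> omega
  have hmodi : ((i - 1) % m + 1) % m = i % m := by
    conv_rhs => rw [← Nat.sub_add_cancel hi1]
    rw [Nat.add_mod, Nat.mod_mod, ← Nat.add_mod]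
  have hmodj : ((j - 1) % m + 1) % m = j % m := by
    conv_rhs => rw [← Nat.sub_add_cancel hj1]
    rw [Nat.add_mod, Nat.mod_mod, ← Nat.add_mod]
  have hdiv := Nat.div_add_mod k m
  have hrange : ∀ (b : Bool) (u : ℕ), u < k / m → 1 ≤ r b + m * u ∧ r b + m * u ≤ k := by
    intro b u hu
    obtain ⟨h1, h2⟩ := hrm b
    have h3 : m * (u + 1) ≤ m * (k / m) := Nat.mul_le_mul_left m hu
    have h4 : m * (u + 1) = m * u + m := by ring
    omega
  have hdvd : ∀ (b : Bool) (u : ℕ), u < k / m → m ∣ f (r b + m * u) := by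
    intro b u hu
    obtain ⟨h1, h2⟩ := hrange b u hu
    cases b
    · refine wc m j _ hm1 hmk hj1 hjk h1 h2 hj ?_
      simp only [hr, Bool.false_eq_true, if_false]
      rw [Nat.add_mul_mod_self_left, hmodj]
    · refine wc m i _ hm1 hmk hi1 hik h1 h2 hi ?_
      simp only [hr, if_true]
      rw [Nat.add_mul_mod_self_left, hmodi]
  have hmap : ∀ z ∈ (Finset.univ : Finset Bool) ×ˢ Finset.range (k / m),
      f (r z.1 + m * z.2) / m ∈ Finset.Icc 1 (k / m) := by
    rintro ⟨b, u⟩ hz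
    rw [Finset.mem_product, Finset.mem_range] at hz
    obtain ⟨h1, h2⟩ := hrange b u hz.2
    obtain ⟨h4, h5⟩ := maps _ h1 h2
    obtain ⟨c, hc⟩ := hdvd b u hz.2
    simp only
    rw [hc] at h4 h5 ⊢
    rw [Nat.mul_div_cancel_left _ hm1, Finset.mem_Icc]
    constructor
    · rcases Nat.eq_zero_or_pos c with h | h
      · rw [h] at h4; omega
      · exact h
    · rw [Nat.le_div_iff_mul_le hm1, mul_comm]
      exact h5
  have hinj : Set.InjOn (fun z : Bool × ℕ => f (r z.1 + m * z.2) / m)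
      ((Finset.univ : Finset Bool) ×ˢ Finset.range (k / m) : Finset (Bool × ℕ)) := by
    rintro ⟨b, u⟩ hz ⟨b', u'⟩ hz' he
    rw [Finset.mem_coe, Finset.mem_product, Finset.mem_range] at hz hz'
    have he : f (r b + m * u) / m = f (r b' + m * u') / m := he
    obtain ⟨h1, h2⟩ := hrange b u hz.2
    obtain ⟨h1', h2'⟩ := hrange b' u' hz'.2
    have h7 : f (r b + m * u) = f (r b' + m * u') := by
      rw [← Nat.div_mul_cancel (hdvd b u hz.2), ← Nat.div_mul_cancel (hdvd b' u' hz'.2), he]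
    have h8 := inj _ _ h1 h2 h1' h2' h7
    have h9 : r b % m = r b' % m := by
      have := congrArg (· % m) h8
      simpa [Nat.add_mul_mod_self_left] using this
    have hbb : b = b' := by
      cases b <;> cases b'
      · rfl
      · exfalso
        simp only [hr, Bool.false_eq_true, if_false, if_true] at h9
        rw [hmodi, hmodj] at h9
        exact hne h9.symm
      · exfalso
        simp only [hr, Bool.false_eq_true, if_false, if_true] at h9
        rw [hmodi, hmodj] at h9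
        exact hne h9
      · rfl
    subst hbb
    have h10 : m * u = m * u' := by omega
    rw [Nat.eq_of_mul_eq_mul_left hm1 h10]
  have hcard := Finset.card_le_card_of_injOn _ hmap hinj
  have hpos : 1 ≤ k / m := (Nat.one_le_div_iff hm1).2 hmk
  simp at hcard
  omega

/-- a weakly consecutive permutation comes from a shift -/
theorem exists_shift {k : ℕ} {f : ℕ → ℕ}
    (maps : ∀ i, 1 ≤ i → i ≤ k → 1 ≤ f i ∧ f i ≤ k)
    (surj : ∀ v, 1 ≤ v → v ≤ k → ∃ i, 1 ≤ i ∧ i ≤ k ∧ f i = v)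
    (inj : ∀ i j, 1 ≤ i → i ≤ k → 1 ≤ j → j ≤ k → f i = f j → i = j)
    (wc : ∀ m i j, 1 ≤ m → m ≤ k → 1 ≤ i → i ≤ k → 1 ≤ j → j ≤ k → m ∣ f i → i % m = j % m →
      m ∣ f j) : ∃ t, G k t f := by
  classical
  have one := fun {m i j : ℕ} => one_class (k := k) (f := f) maps inj wc (m := m) (i := i) (j := j)
  choose! x hx1 hxk hx using surj
  set P := (Finset.Icc 1 k).filter Nat.Prime with hP
  set q : ℕ → ℕ := fun p => p ^ Nat.log p k with hq
  have hqk : ∀ p ∈ P, 1 ≤ q p ∧ q p ≤ k := by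
    intro p hp
    rw [hP, Finset.mem_filter, Finset.mem_Icc] at hp
    exact ⟨Nat.one_le_pow _ _ (by omega), Nat.pow_log_le_self p (by omega)⟩
  have hcop : Set.Pairwise (P : Set ℕ) (Function.onFun Nat.Coprime q) := by
    intro p hp p' hp' hne
    rw [hP, Finset.mem_coe, Finset.mem_filter] at hp hp'
    exact Nat.Coprime.pow _ _ ((Nat.coprime_primes hp.2 hp'.2).2 hne)
  obtain ⟨t, ht⟩ := Nat.chineseRemainderOfFinset (fun p => q p - x (q p) % q p) q P
    (fun p hp => by have := (hqk p hp).1; omega) hcop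
  refine ⟨t, maps, fun v h1 h2 => ⟨x v, hx1 v h1 h2, hxk v h1 h2, hx v h1 h2⟩, inj, ?_⟩
  have key : ∀ i p e, 1 ≤ i → i ≤ k → p.Prime → 1 ≤ e → p ^ e ≤ k →
      (p ^ e ∣ f i ↔ p ^ e ∣ t + i) := by
    intro i p e hi1 hik hp he hpe
    have hp1 : 1 ≤ p ^ e := Nat.one_le_pow _ _ hp.pos
    have hpP : p ∈ P := by
      rw [hP, Finset.mem_filter, Finset.mem_Icc]
      exact ⟨⟨hp.one_le, (Nat.le_self_pow (by omega) p).trans hpe⟩, hp⟩
    obtain ⟨hq1, hq2⟩ := hqk p hpP
    have hdq : p ^ e ∣ q p := pow_dvd_pow p (Nat.le_log_of_pow_le hp.one_lt hpe)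
    -- position of `p ^ e` versus position of `q p`
    have h1 : x (p ^ e) % p ^ e = x (q p) % p ^ e :=
      one hp1 hpe (hx1 _ hp1 hpe) (hxk _ hp1 hpe) (hx1 _ hq1 hq2) (hxk _ hq1 hq2)
        (by rw [hx _ hp1 hpe]) (by rw [hx _ hq1 hq2]; exact hdq)
    have h2 : q p ∣ t + x (q p) := by
      have h3 := ht p hpP
      have h4 : t + x (q p) ≡ (q p - x (q p) % q p) + x (q p) % q p [MOD q p] :=
        Nat.ModEq.add h3 (Nat.mod_modEq _ _).symm
      have h5 : (q p - x (q p) % q p) + x (q p) % q p = q p :=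
        Nat.sub_add_cancel (Nat.mod_lt _ hq1).le
      rw [h5] at h4
      exact (Nat.modEq_zero_iff_dvd).1 (h4.trans (by simp [Nat.ModEq]))
    have h3 : p ^ e ∣ t + x (p ^ e) := by
      have h4 : p ^ e ∣ t + x (q p) := hdq.trans h2
      rw [Nat.dvd_iff_mod_eq_zero, Nat.add_mod] at h4 ⊢
      rw [h1]
      exact h4
    have h5 : p ^ e ∣ f i ↔ i % p ^ e = x (p ^ e) % p ^ e := by
      constructor
      · intro h
        exact one hp1 hpe hi1 hik (hx1 _ hp1 hpe) (hxk _ hp1 hpe) h (by rw [hx _ hp1 hpe])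
      · intro h
        exact wc _ _ _ hp1 hpe (hx1 _ hp1 hpe) (hxk _ hp1 hpe) hi1 hik
          (by rw [hx _ hp1 hpe]) h.symm
    rw [h5]
    constructor
    · intro h
      rw [Nat.dvd_iff_mod_eq_zero, Nat.add_mod, h, ← Nat.add_mod]
      exact Nat.mod_eq_zero_of_dvd h3
    · intro h
      have h6 : t + i ≡ t + x (p ^ e) [MOD p ^ e] :=
        ((Nat.modEq_zero_iff_dvd).2 h).trans ((Nat.modEq_zero_iff_dvd).2 h3).symm
      exact Nat.ModEq.add_left_cancel' t h6
  intro i m hi1 hik hm1 hmk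
  rw [Nat.dvd_iff_prime_pow_dvd_dvd, Nat.dvd_iff_prime_pow_dvd_dvd]
  apply forall_congr'; intro p
  apply forall_congr'; intro e
  apply imp_congr_right; intro hp
  apply imp_congr_right; intro hd
  rcases Nat.eq_zero_or_pos e with h0 | h0
  · rw [h0, pow_zero]; simp
  · exact key i p e hi1 hik hp h0 ((Nat.le_of_dvd hm1 hd).trans hmk)

end Pool.Agent.H99.WC
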