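import Mathlib
import Pool.Agent.H99.WC.Link

set_option autoImplicit false

namespace Pool.Agent.H99.WC

/-- A permutation `σ` of `[k] = {1, …, k}` is weakly consecutive if for all `m, i, j ∈ [k]`:
`m ∣ σ i` and `m ∣ i - j` imply `m ∣ σ j`. -/
def WeaklyConsecutive (k : ℕ) (σ : Equiv.Perm (Set.Icc 1 k)) : Prop :=
  ∀ m i j : Set.Icc 1 k, (m : ℕ) ∣ (σ i : ℕ) → ((m : ℕ) : ℤ) ∣ ((i : ℕ) : ℤ) - ((j : ℕ) : ℤ) →
    (m : ℕ) ∣ (σ j : ℕ)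

/-- `N k`: the number of weakly consecutive permutations of `[k]`. -/
noncomputable def N (k : ℕ) : ℕ := Nat.card {σ : Equiv.Perm (Set.Icc 1 k) // WeaklyConsecutive k σ}

/-- the reversal `(k, …, 2, 1)` -/
def revPerm (k : ℕ) : Equiv.Perm (Set.Icc 1 k) where
  toFun i := ⟨k + 1 - i, by have := i.2; simp only [Set.mem_Icc] at this ⊢; omega⟩
  invFun i := ⟨k + 1 - i, by have := i.2; simp only [Set.mem_Icc] at this ⊢; omega⟩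
  left_inv i := by
    apply Subtype.ext
    have := i.2
    simp only [Set.mem_Icc] at this ⊢
    omega
  right_inv i := by
    apply Subtype.ext
    have := i.2
    simp only [Set.mem_Icc] at this ⊢
    omega

theorem wc_one (k : ℕ) : WeaklyConsecutive k 1 := by
  intro m i j h1 h2
  rw [Equiv.Perm.one_apply] at h1 ⊢
  have h3 := Int.natCast_dvd_natCast.2 h1
  rw [← Int.natCast_dvd_natCast]
  have h4 : ((j : ℕ) : ℤ) = ((i : ℕ) : ℤ) - (((i : ℕ) : ℤ) - ((j : ℕ) : ℤ)) := by ring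
  rw [h4]
  exact dvd_sub h3 h2

theorem wc_rev (k : ℕ) : WeaklyConsecutive k (revPerm k) := by
  intro m i j h1 h2
  have hi := i.2
  have hj := j.2
  simp only [Set.mem_Icc] at hi hj
  have h1' : (m : ℕ) ∣ k + 1 - (i : ℕ) := h1
  show (m : ℕ) ∣ k + 1 - (j : ℕ)
  have h3 := Int.natCast_dvd_natCast.2 h1'
  rw [← Int.natCast_dvd_natCast]
  have h4 : ((k + 1 - (j : ℕ) : ℕ) : ℤ)
      = ((k + 1 - (i : ℕ) : ℕ) : ℤ) + (((i : ℕ) : ℤ) - ((j : ℕ) : ℤ)) := by omega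
  rw [h4]
  exact dvd_add h3 h2

/-- **Rigidity.** -/
theorem eq_one_or_rev {k c : ℕ} (hk : k % 12 = 3) (h1 : 127 * 2 ^ c ≤ k) (h2 : k < 128 * 2 ^ c)
    (hbad : ∀ p b : ℕ, p.Prime → 2 ≤ b → ¬ (p ^ b ≤ k ∧ k < p ^ b + p ^ (b - 1)))
    (σ : Equiv.Perm (Set.Icc 1 k)) (hσ : WeaklyConsecutive k σ) : σ = 1 ∨ σ = revPerm k := by
  classical
  set f : ℕ → ℕ := fun i => if h : i ∈ Set.Icc 1 k then (σ ⟨i, h⟩ : ℕ) else 0 with hf
  have hfi : ∀ i (h : i ∈ Set.Icc 1 k), f i = (σ ⟨i, h⟩ : ℕ) := by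
    intro i h
    simp only [hf]
    rw [dif_pos h]
  have maps : ∀ i, 1 ≤ i → i ≤ k → 1 ≤ f i ∧ f i ≤ k := by
    intro i h1 h2
    rw [hfi i ⟨h1, h2⟩]
    exact (σ ⟨i, ⟨h1, h2⟩⟩).2
  have surj : ∀ v, 1 ≤ v → v ≤ k → ∃ i, 1 ≤ i ∧ i ≤ k ∧ f i = v := by
    intro v h1 h2
    have h3 := (σ.symm ⟨v, ⟨h1, h2⟩⟩).2
    refine ⟨_, h3.1, h3.2, ?_⟩
    rw [hfi _ h3]
    simp
  have inj : ∀ i j, 1 ≤ i → i ≤ k → 1 ≤ j → j ≤ k → f i = f j → i = j := by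
    intro i j h1 h2 h3 h4 h5
    rw [hfi i ⟨h1, h2⟩, hfi j ⟨h3, h4⟩] at h5
    have h6 := σ.injective (Subtype.ext h5)
    exact congrArg Subtype.val h6
  have wc : ∀ m i j, 1 ≤ m → m ≤ k → 1 ≤ i → i ≤ k → 1 ≤ j → j ≤ k → m ∣ f i → i % m = j % m →
      m ∣ f j := by
    intro m i j hm1 hmk hi1 hik hj1 hjk h3 h4
    rw [hfi j ⟨hj1, hjk⟩]
    rw [hfi i ⟨hi1, hik⟩] at h3
    refine hσ ⟨m, ⟨hm1, hmk⟩⟩ ⟨i, ⟨hi1, hik⟩⟩ ⟨j, ⟨hj1, hjk⟩⟩ h3 ?_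
    have h5 : (j : ℤ) ≡ i [ZMOD m] := Int.natCast_modEq_iff.2 h4.symm
    exact h5.dvd
  obtain ⟨t, g⟩ := exists_shift maps surj inj wc
  rcases rigid hk h1 h2 hbad g with h | h
  · left
    ext i
    have := h i i.2.1 i.2.2
    rw [hfi _ i.2] at this
    simpa using this
  · right
    ext i
    have := h i i.2.1 i.2.2
    rw [hfi _ i.2] at this
    exact this

theorem N_eq_two {k c : ℕ} (hk : k % 12 = 3) (h1 : 127 * 2 ^ c ≤ k) (h2 : k < 128 * 2 ^ c)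
    (hbad : ∀ p b : ℕ, p.Prime → 2 ≤ b → ¬ (p ^ b ≤ k ∧ k < p ^ b + p ^ (b - 1))) : N k = 2 := by
  unfold N
  rw [Nat.card_eq_two_iff]
  refine ⟨⟨1, wc_one k⟩, ⟨revPerm k, wc_rev k⟩, ?_, ?_⟩
  · intro h
    have h3 : (1 : Equiv.Perm (Set.Icc 1 k)) = revPerm k := congrArg Subtype.val h
    have h4 : (1 : ℕ) ∈ Set.Icc 1 k := ⟨le_rfl, by omega⟩
    have h5 := congrArg (fun s : Equiv.Perm (Set.Icc 1 k) => ((s ⟨1, h4⟩ : Set.Icc 1 k) : ℕ)) h3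
    have h6 : (1 : ℕ) = k + 1 - 1 := h5
    omega
  · rw [Set.eq_univ_iff_forall]
    rintro ⟨σ, hσ⟩
    rcases eq_one_or_rev hk h1 h2 hbad σ hσ with h | h
    · left; exact Subtype.ext h
    · right; exact Subtype.ext h

end Pool.Agent.H99.WC
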